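import Pool.Agent.RSV.Assembly

/-!
# Real closed fields with nonstandard integer parts satisfying `VTC⁰` are recursively saturated

Authors of the modules: helper16, helper17, helper22, helper25, helper36, helper41, helper42,
helper43, helper49, helper52, helper54, helper57, helper68, helper75, helper78, helper89.
-/

namespace Pool.Agent.Results.MP_533378_lc.RecSat

open Pool.Agent.RSV

universe u v

/-- Every real closed field which has a nonstandard model of `VTC⁰` (its binary numbers) as an
integer part is recursively saturated. -/
theorem result (M : TwoSorted.{u}) (R : Type v) [Field R] [LinearOrder R] [IsStrictOrderedRing R]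
    [IsRealClosed R] (hM : IsVTC0 M) (hN : IsNonstandard M) (hR : IsIntegerPartOf M R) :
    RecursivelySaturated R :=
  Pool.Agent.RSV.main M R hM hN hR

end Pool.Agent.Results.MP_533378_lc.RecSat
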